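import Mathlib

set_option autoImplicit false
open Filter Topology MeasureTheory
open scoped ENNReal

namespace Pool.Agent.Lib.MP_ec63c8_an.Mult

/-- modulus of the scalar resolvent kernel -/
noncomputable def kr (a u : ℝ) : ℝ := (Real.sqrt (a ^ 2 + u ^ 2))⁻¹

/-- Poisson kernel (times pi) -/
noncomputable def pois (a u : ℝ) : ℝ := a / (a ^ 2 + u ^ 2)

lemma kr_nonneg (a u : ℝ) : 0 ≤ kr a u := inv_nonneg.2 (Real.sqrt_nonneg _)

lemma kr_sq (a u : ℝ) : kr a u ^ 2 = (a ^ 2 + u ^ 2)⁻¹ := by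
  unfold kr
  rw [inv_pow, Real.sq_sqrt (by positivity)]

lemma mul_kr_sq (a u : ℝ) : a * kr a u ^ 2 = pois a u := by
  rw [kr_sq, pois, div_eq_mul_inv]

lemma pois_nonneg {a : ℝ} (ha : 0 ≤ a) (u : ℝ) : 0 ≤ pois a u := by
  unfold pois; positivity

lemma pois_eq {a : ℝ} (ha : 0 < a) (u : ℝ) : pois a u = a⁻¹ * (1 + (u / a) ^ 2)⁻¹ := by
  unfold pois
  field_simp

lemma integrable_pois {a : ℝ} (ha : 0 < a) (c : ℝ) : Integrable (fun s : ℝ => pois a (s - c)) := by
  have h : Integrable (fun s : ℝ => pois a s) := by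
    simp_rw [pois_eq ha]
    exact (integrable_inv_one_add_sq.comp_div ha.ne').const_mul _
  exact h.comp_sub_right c

lemma integral_pois {a : ℝ} (ha : 0 < a) (c : ℝ) : ∫ s : ℝ, pois a (s - c) = Real.pi := by
  rw [integral_sub_right_eq_self (fun s => pois a s) c]
  simp_rw [pois_eq ha]
  rw [integral_const_mul, Measure.integral_comp_div (fun y : ℝ => (1 + y ^ 2)⁻¹) a,
    integral_univ_inv_one_add_sq, abs_of_pos ha, smul_eq_mul]
  field_simp

lemma lintegral_pois {a : ℝ} (ha : 0 < a) (c : ℝ) :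
    ∫⁻ s : ℝ, ENNReal.ofReal (pois a (s - c)) = ENNReal.ofReal Real.pi := by
  rw [← integral_pois ha c, ofReal_integral_eq_lintegral_ofReal (integrable_pois ha c)]
  exact Eventually.of_forall fun s => pois_nonneg ha.le _

lemma amgm {a : ℝ} (ha : 0 < a) (u v : ℝ) :
    a * (kr a u * kr a v) ≤ (pois a u + pois a v) / 2 := by
  rw [← mul_kr_sq, ← mul_kr_sq]
  nlinarith [mul_nonneg ha.le (sq_nonneg (kr a u - kr a v))]

lemma far_one {a D u : ℝ} (hD : D ≠ 0) (hu : D ^ 2 ≤ 4 * u ^ 2) :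
    kr a u ^ 2 ≤ (1 + 4 / D ^ 2) * pois 1 u := by
  have hD2 : 0 < D ^ 2 := by positivity
  have hu2 : 0 < u ^ 2 := by nlinarith
  rw [kr_sq, pois]
  have h1 : (a ^ 2 + u ^ 2)⁻¹ ≤ (u ^ 2)⁻¹ := by
    apply inv_anti₀ hu2; nlinarith [sq_nonneg a]
  refine h1.trans ?_
  have h2 : (u ^ 2)⁻¹ ≤ 4 / D ^ 2 := by
    rw [inv_eq_one_div, div_le_div_iff₀ hu2 hD2]; linarith
  have hu0 : u ≠ 0 := by
    rintro rfl
    simp at hu2
  have h3 : (u ^ 2)⁻¹ = (1 + (u ^ 2)⁻¹) * (1 / (1 ^ 2 + u ^ 2)) := by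
    field_simp
    ring
  rw [h3]
  gcongr

lemma split_one {a D u v : ℝ} (ha : 0 < a) (hD : D ≠ 0) (hu : D ^ 2 ≤ 4 * u ^ 2) :
    a * (kr a u * kr a v) ≤ Real.sqrt a / 2 * (pois a v + (1 + 4 / D ^ 2) * pois 1 u) := by
  have h := far_one (a := a) hD hu
  set r := Real.sqrt a with hr
  have hr0 : 0 < r := Real.sqrt_pos.2 ha
  have hra : r ^ 2 = a := Real.sq_sqrt ha.le
  rw [← mul_kr_sq]
  have h2 : a * (kr a u * kr a v) ≤ r / 2 * (a * kr a v ^ 2 + kr a u ^ 2) := by
    have := mul_nonneg hr0.le (sq_nonneg (r * kr a v - kr a u))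
    rw [← hra] at *
    nlinarith
  refine h2.trans ?_
  gcongr

lemma split_two {a x y : ℝ} (ha : 0 < a) (hD : x - y ≠ 0) (s : ℝ) :
    a * (kr a (s - x) * kr a (s - y)) ≤ Real.sqrt a / 2 *
      (pois a (s - x) + pois a (s - y) +
        (1 + 4 / (x - y) ^ 2) * (pois 1 (s - x) + pois 1 (s - y))) := by
  have hc : 0 ≤ 1 + 4 / (x - y) ^ 2 := by positivity
  have p1 := pois_nonneg ha.le (s - x)
  have p2 := pois_nonneg ha.le (s - y)
  have p3 := mul_nonneg hc (pois_nonneg zero_le_one (s - x))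
  have p4 := mul_nonneg hc (pois_nonneg zero_le_one (s - y))
  have hr : 0 ≤ Real.sqrt a / 2 := by positivity
  by_cases h : (x - y) ^ 2 ≤ 4 * (s - x) ^ 2
  · refine (split_one (v := s - y) ha hD h).trans (mul_le_mul_of_nonneg_left ?_ hr)
    rw [mul_add]; linarith
  · have h' : (x - y) ^ 2 ≤ 4 * (s - y) ^ 2 := by
      push Not at h
      nlinarith [sq_nonneg ((s - y) + (s - x)), sq_nonneg ((s - y) - 2 * (s - x))]
    rw [mul_comm (kr a (s - x))]
    refine (split_one (v := s - x) ha hD h').trans (mul_le_mul_of_nonneg_left ?_ hr)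
    rw [mul_add]; linarith

/-- the pair kernel -/
noncomputable def pairK (a x y : ℝ) : ℝ≥0∞ :=
  ∫⁻ s : ℝ, ENNReal.ofReal (a * (kr a (s - x) * kr a (s - y)))

lemma pairK_le {a : ℝ} (ha : 0 < a) (x y : ℝ) : pairK a x y ≤ ENNReal.ofReal Real.pi := by
  have hi : Integrable (fun s : ℝ => (pois a (s - x) + pois a (s - y)) / 2) :=
    ((integrable_pois ha x).add (integrable_pois ha y)).div_const 2
  calc pairK a x y ≤ ∫⁻ s : ℝ, ENNReal.ofReal ((pois a (s - x) + pois a (s - y)) / 2) :=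
        lintegral_mono fun s => ENNReal.ofReal_le_ofReal (amgm ha _ _)
    _ = ENNReal.ofReal (∫ s : ℝ, (pois a (s - x) + pois a (s - y)) / 2) := by
        rw [ofReal_integral_eq_lintegral_ofReal hi]
        exact Eventually.of_forall fun s => by
          have := pois_nonneg ha.le (s - x); have := pois_nonneg ha.le (s - y)
          positivity
    _ = ENNReal.ofReal Real.pi := by
        rw [integral_div, integral_add (integrable_pois ha x) (integrable_pois ha y),
          integral_pois ha, integral_pois ha]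
        congr 1; ring

lemma pairK_le_far {a x y : ℝ} (ha : 0 < a) (hD : x - y ≠ 0) :
    pairK a x y ≤ ENNReal.ofReal (Real.sqrt a * (Real.pi * (2 + 4 / (x - y) ^ 2))) := by
  have i1 : Integrable (fun s : ℝ => pois a (s - x) + pois a (s - y)) :=
    (integrable_pois ha x).add (integrable_pois ha y)
  have i2 : Integrable (fun s : ℝ => (1 + 4 / (x - y) ^ 2) * (pois 1 (s - x) + pois 1 (s - y))) :=
    ((integrable_pois one_pos x).add (integrable_pois one_pos y)).const_mul
      (1 + 4 / (x - y) ^ 2)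
  have hi : Integrable (fun s : ℝ => Real.sqrt a / 2 *
      (pois a (s - x) + pois a (s - y) +
        (1 + 4 / (x - y) ^ 2) * (pois 1 (s - x) + pois 1 (s - y)))) :=
    (i1.add i2).const_mul _
  calc pairK a x y ≤ ∫⁻ s : ℝ, ENNReal.ofReal (Real.sqrt a / 2 *
      (pois a (s - x) + pois a (s - y) +
        (1 + 4 / (x - y) ^ 2) * (pois 1 (s - x) + pois 1 (s - y)))) :=
        lintegral_mono fun s => ENNReal.ofReal_le_ofReal (split_two ha hD s)
    _ = ENNReal.ofReal (∫ s : ℝ, Real.sqrt a / 2 *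
      (pois a (s - x) + pois a (s - y) +
        (1 + 4 / (x - y) ^ 2) * (pois 1 (s - x) + pois 1 (s - y)))) := by
        rw [ofReal_integral_eq_lintegral_ofReal hi]
        exact Eventually.of_forall fun s => by
          have := pois_nonneg ha.le (s - x); have := pois_nonneg ha.le (s - y)
          have := pois_nonneg zero_le_one (s - x); have := pois_nonneg zero_le_one (s - y)
          positivity
    _ = _ := by
        rw [integral_const_mul, integral_add i1 i2, integral_const_mul,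
          integral_add (integrable_pois ha x) (integrable_pois ha y),
          integral_add (integrable_pois one_pos x) (integrable_pois one_pos y),
          integral_pois ha, integral_pois ha, integral_pois one_pos, integral_pois one_pos]
        congr 1; ring

lemma pairK_tendsto {x y : ℝ} (hD : x - y ≠ 0) :
    Tendsto (fun a : ℝ => pairK a x y) (𝓝[>] 0) (𝓝 0) := by
  have h : Tendsto (fun a : ℝ =>
      ENNReal.ofReal (Real.sqrt a * (Real.pi * (2 + 4 / (x - y) ^ 2)))) (𝓝[>] 0) (𝓝 0) := by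
    have hc : Continuous (fun a : ℝ =>
        ENNReal.ofReal (Real.sqrt a * (Real.pi * (2 + 4 / (x - y) ^ 2)))) :=
      ENNReal.continuous_ofReal.comp (Real.continuous_sqrt.mul continuous_const)
    have := (hc.tendsto 0).mono_left (nhdsWithin_le_nhds (s := Set.Ioi (0 : ℝ)))
    simpa using this
  refine tendsto_of_tendsto_of_tendsto_of_le_of_le' tendsto_const_nhds h
    (Eventually.of_forall fun _ => zero_le) ?_
  filter_upwards [self_mem_nhdsWithin] with a ha using pairK_le_far ha hD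

lemma measurable_kr (a : ℝ) : Measurable (kr a) := by
  unfold kr; fun_prop

lemma measurable_pairK (a : ℝ) :
    Measurable (fun p : unitInterval × unitInterval => pairK a p.1 p.2) := by
  unfold pairK
  have hk := measurable_kr a
  refine Measurable.lintegral_prod_right'
    (f := fun q : (unitInterval × unitInterval) × ℝ =>
      ENNReal.ofReal (a * (kr a (q.2 - q.1.1) * kr a (q.2 - q.1.2)))) ?_
  fun_prop

/-- first moment of the kernel against a weight -/
noncomputable def mA (W : unitInterval → ℝ≥0∞) (a s : ℝ) : ℝ≥0∞ :=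
  ∫⁻ x : unitInterval, ENNReal.ofReal (kr a (s - x)) * W x

/-- second moment of the kernel against a weight -/
noncomputable def mB (W : unitInterval → ℝ≥0∞) (a s : ℝ) : ℝ≥0∞ :=
  ∫⁻ x : unitInterval, ENNReal.ofReal (kr a (s - x)) ^ 2 * W x

lemma measurable_mA {W : unitInterval → ℝ≥0∞} (hW : Measurable W) (a : ℝ) :
    Measurable (mA W a) := by
  have hk := measurable_kr a
  refine Measurable.lintegral_prod_right'
    (f := fun q : ℝ × unitInterval => ENNReal.ofReal (kr a (q.1 - q.2)) * W q.2) ?_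
  fun_prop

lemma measurable_mB {W : unitInterval → ℝ≥0∞} (hW : Measurable W) (a : ℝ) :
    Measurable (mB W a) := by
  have hk := measurable_kr a
  refine Measurable.lintegral_prod_right'
    (f := fun q : ℝ × unitInterval => ENNReal.ofReal (kr a (q.1 - q.2)) ^ 2 * W q.2) ?_
  fun_prop

lemma mB_eq {W : unitInterval → ℝ≥0∞} (hW : Measurable W) {a : ℝ} (ha : 0 < a) :
    ENNReal.ofReal a * ∫⁻ s : ℝ, mB W a s = ENNReal.ofReal Real.pi * ∫⁻ x, W x := by
  have hk := measurable_kr a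
  unfold mB
  rw [lintegral_lintegral_swap (by fun_prop), ← lintegral_const_mul' _ _ ENNReal.ofReal_ne_top,
    ← lintegral_const_mul' _ _ ENNReal.ofReal_ne_top]
  refine lintegral_congr fun x => ?_
  rw [lintegral_mul_const _ (by fun_prop), ← mul_assoc,
    ← lintegral_const_mul' _ _ ENNReal.ofReal_ne_top, ← lintegral_pois ha (x : ℝ)]
  congr 1
  refine lintegral_congr fun s => ?_
  rw [← mul_kr_sq, ENNReal.ofReal_mul ha.le, ENNReal.ofReal_pow (kr_nonneg _ _)]

lemma mA_sq_eq {W : unitInterval → ℝ≥0∞} (hW : Measurable W) {a : ℝ} (ha : 0 < a) :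
    ENNReal.ofReal a * ∫⁻ s : ℝ, mA W a s ^ 2 =
      ∫⁻ p : unitInterval × unitInterval, W p.1 * W p.2 * pairK a p.1 p.2
        ∂((volume : Measure unitInterval).prod volume) := by
  have hk := measurable_kr a
  have h1 : ∀ s : ℝ, mA W a s ^ 2 = ∫⁻ p : unitInterval × unitInterval,
      (ENNReal.ofReal (kr a (s - p.1)) * W p.1) * (ENNReal.ofReal (kr a (s - p.2)) * W p.2)
        ∂((volume : Measure unitInterval).prod volume) := by
    intro s
    rw [lintegral_prod_mul (f := fun x : unitInterval => ENNReal.ofReal (kr a (s - x)) * W x)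
      (g := fun x : unitInterval => ENNReal.ofReal (kr a (s - x)) * W x)
      (by fun_prop) (by fun_prop), sq]
    rfl
  simp_rw [h1]
  rw [lintegral_lintegral_swap (by fun_prop), ← lintegral_const_mul' _ _ ENNReal.ofReal_ne_top]
  refine lintegral_congr fun p => ?_
  unfold pairK
  rw [← lintegral_const_mul' _ _ ENNReal.ofReal_ne_top, ← lintegral_const_mul _ (by fun_prop)]
  refine lintegral_congr fun s => ?_
  rw [ENNReal.ofReal_mul ha.le, ENNReal.ofReal_mul (kr_nonneg _ _)]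
  ring

lemma pair_bound {W : unitInterval → ℝ≥0∞} (hW : Measurable W) :
    ∫⁻ p : unitInterval × unitInterval, W p.1 * W p.2 * ENNReal.ofReal Real.pi
        ∂((volume : Measure unitInterval).prod volume) =
      ENNReal.ofReal Real.pi * (∫⁻ x, W x) ^ 2 := by
  rw [lintegral_mul_const _ (by fun_prop), lintegral_prod_mul hW.aemeasurable hW.aemeasurable]
  ring

lemma mA_sq_le {W : unitInterval → ℝ≥0∞} (hW : Measurable W) {a : ℝ} (ha : 0 < a) :
    ENNReal.ofReal a * ∫⁻ s : ℝ, mA W a s ^ 2 ≤ ENNReal.ofReal Real.pi * (∫⁻ x, W x) ^ 2 := by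
  rw [mA_sq_eq hW ha, ← pair_bound hW]
  refine lintegral_mono fun p => ?_
  gcongr
  exact pairK_le ha _ _

lemma ae_off_diag : ∀ᵐ p : unitInterval × unitInterval
    ∂((volume : Measure unitInterval).prod volume), (p.1 : ℝ) - p.2 ≠ 0 := by
  rw [Measure.ae_prod_iff_ae_ae]
  · refine Eventually.of_forall fun x => ?_
    have : ∀ᵐ y : unitInterval, y ≠ x := by
      rw [ae_iff]
      simp
    filter_upwards [this] with y hy
    intro h
    exact hy (Subtype.ext (by simpa using (sub_eq_zero.1 h).symm))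
  · refine (measurableSet_eq_fun (f := fun p : unitInterval × unitInterval => (p.1 : ℝ) - p.2)
      (g := fun _ => 0) (by fun_prop) measurable_const).compl

lemma mA_sq_tendsto {W : unitInterval → ℝ≥0∞} (hW : Measurable W) (hfin : ∫⁻ x, W x ≠ ∞)
    (hW' : ∀ x, W x ≠ ∞) :
    Tendsto (fun a : ℝ => ENNReal.ofReal a * ∫⁻ s : ℝ, mA W a s ^ 2) (𝓝[>] 0) (𝓝 0) := by
  have h := tendsto_lintegral_filter_of_dominated_convergence
    (μ := (volume : Measure unitInterval).prod (volume : Measure unitInterval))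
    (l := 𝓝[>] (0 : ℝ))
    (F := fun (a : ℝ) (p : unitInterval × unitInterval) => W p.1 * W p.2 * pairK a p.1 p.2)
    (f := fun _ => 0) (fun p => W p.1 * W p.2 * ENNReal.ofReal Real.pi)
    (Eventually.of_forall fun a => by
      have := measurable_pairK a
      fun_prop)
    (by
      filter_upwards [self_mem_nhdsWithin] with a ha
      refine Eventually.of_forall fun p => ?_
      gcongr
      exact pairK_le ha _ _)
    (by
      rw [pair_bound hW]
      exact ENNReal.mul_ne_top ENNReal.ofReal_ne_top (ENNReal.pow_ne_top hfin))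
    (by
      filter_upwards [ae_off_diag] with p hp
      have := ENNReal.Tendsto.const_mul (a := W p.1 * W p.2) (pairK_tendsto hp)
        (Or.inr (ENNReal.mul_ne_top (hW' _) (hW' _)))
      simpa using this)
  rw [lintegral_zero] at h
  refine h.congr' ?_
  filter_upwards [self_mem_nhdsWithin] with a ha using (mA_sq_eq hW ha).symm

/-- the moment of order `q` of the kernel against a weight -/
noncomputable def mQ (W : unitInterval → ℝ≥0∞) (q a s : ℝ) : ℝ≥0∞ :=
  ∫⁻ x : unitInterval, ENNReal.ofReal (kr a (s - x)) ^ q * W x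

lemma mQ_le {W : unitInterval → ℝ≥0∞} (hW : Measurable W) {q : ℝ} (h1 : 1 ≤ q) (h2 : q ≤ 2)
    (a s : ℝ) : mQ W q a s ≤ mA W a s ^ (2 - q) * mB W a s ^ (q - 1) := by
  have hk := measurable_kr a
  have h := ENNReal.lintegral_mul_norm_pow_le (μ := (volume : Measure unitInterval))
    (f := fun x : unitInterval => ENNReal.ofReal (kr a (s - x)) * W x)
    (g := fun x : unitInterval => ENNReal.ofReal (kr a (s - x)) ^ 2 * W x)
    (by fun_prop) (by fun_prop) (p := 2 - q) (q := q - 1) (by linarith) (by linarith) (by ring)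
  refine le_trans (le_of_eq ?_) h
  refine lintegral_congr fun x => ?_
  set k := ENNReal.ofReal (kr a (s - x))
  have e1 : k ^ q = k ^ (2 - q) * (k ^ 2) ^ (q - 1) := by
    rw [← ENNReal.rpow_natCast k 2, ← ENNReal.rpow_mul,
      ← ENNReal.rpow_add_of_nonneg _ _ (by linarith) (by push_cast; linarith)]
    congr 1; push_cast; ring
  have e2 : W x = W x ^ (2 - q) * W x ^ (q - 1) := by
    rw [← ENNReal.rpow_add_of_nonneg _ _ (by linarith) (by linarith)]
    rw [show 2 - q + (q - 1) = 1 by ring, ENNReal.rpow_one]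
  rw [ENNReal.mul_rpow_of_nonneg _ _ (by linarith), ENNReal.mul_rpow_of_nonneg _ _ (by linarith),
    e1]
  conv_lhs => rw [e2]
  ring

lemma mQ_sq_le {W : unitInterval → ℝ≥0∞} (hW : Measurable W) {q : ℝ} (h1 : 1 ≤ q) (h2 : q ≤ 2)
    (a s : ℝ) : (mQ W q a s ^ (1 / q)) ^ 2 ≤
      (mA W a s ^ 2) ^ ((2 - q) / q) * mB W a s ^ (2 * (q - 1) / q) := by
  have hq : 0 < q := by linarith
  calc (mQ W q a s ^ (1 / q)) ^ 2
      ≤ ((mA W a s ^ (2 - q) * mB W a s ^ (q - 1)) ^ (1 / q)) ^ 2 := by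
        gcongr
        exact mQ_le hW h1 h2 a s
    _ = _ := by
        rw [← ENNReal.rpow_natCast _ 2, ← ENNReal.rpow_natCast (mA W a s) 2, ← ENNReal.rpow_mul,
          ← ENNReal.rpow_mul, ENNReal.mul_rpow_of_nonneg _ _ (by positivity), ← ENNReal.rpow_mul,
          ← ENNReal.rpow_mul]
        congr 2 <;> push_cast <;> field_simp

lemma main_interp {W : unitInterval → ℝ≥0∞} (hW : Measurable W) {q : ℝ} (h1 : 1 ≤ q) (h2 : q ≤ 2)
    {a : ℝ} (ha : 0 < a) :
    ENNReal.ofReal a * ∫⁻ s : ℝ, (mQ W q a s ^ (1 / q)) ^ 2 ≤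
      (ENNReal.ofReal a * ∫⁻ s : ℝ, mA W a s ^ 2) ^ ((2 - q) / q) *
        (ENNReal.ofReal Real.pi * ∫⁻ x, W x) ^ (2 * (q - 1) / q) := by
  have hq : 0 < q := by linarith
  have t1 : 0 ≤ (2 - q) / q := div_nonneg (by linarith) hq.le
  have t2 : 0 ≤ 2 * (q - 1) / q := div_nonneg (by linarith) hq.le
  have t3 : (2 - q) / q + 2 * (q - 1) / q = 1 := by field_simp; ring
  have hA := measurable_mA hW a
  have hB := measurable_mB hW a
  have h := ENNReal.lintegral_mul_norm_pow_le (μ := (volume : Measure ℝ))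
    (f := fun s : ℝ => mA W a s ^ 2) (g := fun s : ℝ => mB W a s)
    (by fun_prop) (by fun_prop) t1 t2 t3
  have e : ENNReal.ofReal a = ENNReal.ofReal a ^ ((2 - q) / q) *
      ENNReal.ofReal a ^ (2 * (q - 1) / q) := by
    rw [← ENNReal.rpow_add_of_nonneg _ _ t1 t2, t3, ENNReal.rpow_one]
  rw [← mB_eq hW ha, ENNReal.mul_rpow_of_nonneg _ _ t1, ENNReal.mul_rpow_of_nonneg _ _ t2]
  calc ENNReal.ofReal a * ∫⁻ s : ℝ, (mQ W q a s ^ (1 / q)) ^ 2
      ≤ ENNReal.ofReal a * ((∫⁻ s : ℝ, mA W a s ^ 2) ^ ((2 - q) / q) *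
          (∫⁻ s : ℝ, mB W a s) ^ (2 * (q - 1) / q)) := by
        gcongr
        exact (lintegral_mono fun s => mQ_sq_le hW h1 h2 a s).trans h
    _ = _ := by
        conv_lhs => rw [e]
        ring

lemma main_le {W : unitInterval → ℝ≥0∞} (hW : Measurable W) {q : ℝ} (h1 : 1 ≤ q) (h2 : q ≤ 2)
    {a : ℝ} (ha : 0 < a) :
    ENNReal.ofReal a * ∫⁻ s : ℝ, (mQ W q a s ^ (1 / q)) ^ 2 ≤
      ENNReal.ofReal Real.pi * ((∫⁻ x, W x) ^ (1 / q)) ^ 2 := by
  have hq : 0 < q := by linarith
  have t1 : 0 ≤ (2 - q) / q := div_nonneg (by linarith) hq.le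
  have t2 : 0 ≤ 2 * (q - 1) / q := div_nonneg (by linarith) hq.le
  have t3 : (2 - q) / q + 2 * (q - 1) / q = 1 := by field_simp; ring
  refine (main_interp hW h1 h2 ha).trans ?_
  calc (ENNReal.ofReal a * ∫⁻ s : ℝ, mA W a s ^ 2) ^ ((2 - q) / q) *
        (ENNReal.ofReal Real.pi * ∫⁻ x, W x) ^ (2 * (q - 1) / q)
      ≤ (ENNReal.ofReal Real.pi * (∫⁻ x, W x) ^ 2) ^ ((2 - q) / q) *
        (ENNReal.ofReal Real.pi * ∫⁻ x, W x) ^ (2 * (q - 1) / q) :=
        mul_le_mul' (ENNReal.rpow_le_rpow (mA_sq_le hW ha) t1) le_rfl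
    _ = _ := by
        set N := ∫⁻ x, W x
        set P := ENNReal.ofReal Real.pi
        have e1 : P ^ ((2 - q) / q) * P ^ (2 * (q - 1) / q) = P := by
          rw [← ENNReal.rpow_add_of_nonneg _ _ t1 t2, t3, ENNReal.rpow_one]
        have e2 : (N ^ 2) ^ ((2 - q) / q) * N ^ (2 * (q - 1) / q) = (N ^ (1 / q)) ^ 2 := by
          rw [← ENNReal.rpow_natCast N 2, ← ENNReal.rpow_natCast _ 2, ← ENNReal.rpow_mul,
            ← ENNReal.rpow_mul, ← ENNReal.rpow_add_of_nonneg _ _ (by positivity) t2]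
          congr 1; push_cast; field_simp; ring
        rw [ENNReal.mul_rpow_of_nonneg _ _ t1, ENNReal.mul_rpow_of_nonneg _ _ t2, ← e2]
        conv_rhs => rw [← e1]
        ring

lemma main_tendsto {W : unitInterval → ℝ≥0∞} (hW : Measurable W) (hfin : ∫⁻ x, W x ≠ ∞)
    (hW' : ∀ x, W x ≠ ∞) {q : ℝ} (h1 : 1 ≤ q) (h2 : q < 2) :
    Tendsto (fun a : ℝ => ENNReal.ofReal a * ∫⁻ s : ℝ, (mQ W q a s ^ (1 / q)) ^ 2)
      (𝓝[>] 0) (𝓝 0) := by
  have hq : 0 < q := by linarith
  have t1 : 0 < (2 - q) / q := div_pos (by linarith) hq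
  have t2 : 0 ≤ 2 * (q - 1) / q := div_nonneg (by linarith) hq.le
  have h3 := ((ENNReal.continuous_rpow_const (y := (2 - q) / q)).tendsto 0).comp
    (mA_sq_tendsto hW hfin hW')
  rw [ENNReal.zero_rpow_of_pos t1] at h3
  have h4 := ENNReal.Tendsto.mul_const
    (b := (ENNReal.ofReal Real.pi * ∫⁻ x, W x) ^ (2 * (q - 1) / q)) h3
    (Or.inr (ENNReal.rpow_ne_top_of_nonneg t2 (ENNReal.mul_ne_top ENNReal.ofReal_ne_top hfin)))
  rw [zero_mul] at h4
  refine tendsto_of_tendsto_of_tendsto_of_le_of_le' tendsto_const_nhds h4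
    (Eventually.of_forall fun _ => zero_le) ?_
  filter_upwards [self_mem_nhdsWithin] with a ha using main_interp hW h1 h2.le ha

end Pool.Agent.Lib.MP_ec63c8_an.Mult
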