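import Pool.Agent.Lib.MP_ec63c8_an.MultA

set_option autoImplicit false
open Filter Topology MeasureTheory
open scoped ENNReal

namespace Pool.Agent.Lib.MP_ec63c8_an.Mult

variable (p : ℝ≥0∞) [Fact (1 ≤ p)]

/-- multiplication by continuous functions on `L^p[0,1]` -/
noncomputable def mulOp : C(unitInterval, ℂ) →L[ℂ]
    Lp ℂ p (volume : Measure unitInterval) →L[ℂ] Lp ℂ p (volume : Measure unitInterval) :=
  ((ContinuousLinearMap.mul ℂ ℂ).holderL (volume : Measure unitInterval) ∞ p p).comp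
    (ContinuousMap.toLp ∞ (volume : Measure unitInterval) ℂ)

lemma mulOp_ae (φ : C(unitInterval, ℂ)) (g : Lp ℂ p (volume : Measure unitInterval)) :
    (mulOp p φ g : unitInterval → ℂ) =ᵐ[volume] fun x => φ x * g x := by
  have h1 := (ContinuousLinearMap.mul ℂ ℂ).coeFn_holder (r := p)
    (ContinuousMap.toLp ∞ (volume : Measure unitInterval) ℂ φ) g
  have h2 := ContinuousMap.coeFn_toLp (p := ∞) (μ := (volume : Measure unitInterval)) (𝕜 := ℂ) φ
  filter_upwards [h1, h2] with x h1 h2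
  have e : mulOp p φ g = (ContinuousLinearMap.mul ℂ ℂ).holder p
      (ContinuousMap.toLp ∞ (volume : Measure unitInterval) ℂ φ) g := rfl
  rw [e, h1, h2]
  simp

/-- the character `x ↦ exp (i t x)` -/
noncomputable def ch (t : ℝ) : C(unitInterval, ℂ) :=
  ⟨fun x => Complex.exp (Complex.I * (t : ℂ) * ((x : ℝ) : ℂ)), by fun_prop⟩

lemma ch_apply (t : ℝ) (x : unitInterval) :
    ch t x = Complex.exp (Complex.I * (t : ℂ) * ((x : ℝ) : ℂ)) := rfl

lemma norm_ch_apply (t : ℝ) (x : unitInterval) : ‖ch t x‖ = 1 := by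
  rw [ch_apply, Complex.norm_exp]
  simp

lemma norm_ch_le (t : ℝ) : ‖ch t‖ ≤ 1 :=
  (ContinuousMap.norm_le _ zero_le_one).2 fun x => (norm_ch_apply t x).le

lemma continuous_ch : Continuous ch := by
  refine ContinuousMap.continuous_of_continuous_uncurry ch ?_
  have : Function.uncurry (fun t x => ch t x) =
      fun q : ℝ × unitInterval => Complex.exp (Complex.I * (q.1 : ℂ) * ((q.2 : ℝ) : ℂ)) := rfl
  rw [this]
  fun_prop

/-- the multiplication group -/
noncomputable def grp (t : ℝ) :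
    Lp ℂ p (volume : Measure unitInterval) →L[ℂ] Lp ℂ p (volume : Measure unitInterval) :=
  mulOp p (ch t)

lemma grp_ae (t : ℝ) (g : Lp ℂ p (volume : Measure unitInterval)) :
    (grp p t g : unitInterval → ℂ) =ᵐ[volume]
      fun x => Complex.exp (Complex.I * (t : ℂ) * ((x : ℝ) : ℂ)) * g x :=
  mulOp_ae p (ch t) g

lemma continuous_grp : Continuous (grp p) := (mulOp p).continuous.comp continuous_ch

lemma grp_zero : grp p 0 = 1 := by
  ext1 g
  refine Lp.ext ?_
  filter_upwards [grp_ae p 0 g] with x hx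
  rw [hx]; simp

lemma grp_add (s t : ℝ) : grp p (s + t) = grp p s * grp p t := by
  ext1 g
  refine Lp.ext ?_
  filter_upwards [grp_ae p (s + t) g, grp_ae p s (grp p t g), grp_ae p t g] with x h1 h2 h3
  rw [h1, mul_apply_eq_comp, h2, h3, ← mul_assoc, ← Complex.exp_add]
  congr 2
  push_cast; ring

lemma norm_grp (t : ℝ) (g : Lp ℂ p (volume : Measure unitInterval)) : ‖grp p t g‖ = ‖g‖ := by
  rw [Lp.norm_def, Lp.norm_def]
  congr 1
  refine eLpNorm_congr_norm_ae ?_
  filter_upwards [grp_ae p t g] with x hx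
  rw [hx, norm_mul, ← ch_apply, norm_ch_apply, one_mul]

/-- the scalar resolvent -/
noncomputable def res (a s : ℝ) (ha : 0 < a) : C(unitInterval, ℂ) :=
  ⟨fun x => ((a : ℂ) + ((s - x : ℝ) : ℂ) * Complex.I)⁻¹, by
    refine Continuous.inv₀ (by fun_prop) fun x h => ?_
    have := congrArg Complex.re h
    simp at this
    exact ha.ne' this⟩

lemma res_apply (a s : ℝ) (ha : 0 < a) (x : unitInterval) :
    res a s ha x = ((a : ℂ) + ((s - x : ℝ) : ℂ) * Complex.I)⁻¹ := rfl

lemma norm_res (a s : ℝ) (ha : 0 < a) (x : unitInterval) : ‖res a s ha x‖ = kr a (s - x) := by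
  rw [res_apply, norm_inv, Complex.norm_add_mul_I, kr]

lemma integrableOn_ch {a : ℝ} (ha : 0 < a) (s : ℝ) :
    IntegrableOn (fun t : ℝ =>
      Complex.exp (-(((a : ℂ) + (s : ℂ) * Complex.I) * (t : ℂ))) • ch t) (Set.Ioi (0 : ℝ)) := by
  have h0 : IntegrableOn (fun t : ℝ =>
      Complex.exp (-((a : ℂ) + (s : ℂ) * Complex.I) * (t : ℂ))) (Set.Ioi (0 : ℝ)) :=
    integrableOn_exp_mul_complex_Ioi (by simpa using ha) 0
  have hc := continuous_ch
  refine Integrable.mono' h0.norm (Continuous.aestronglyMeasurable (by fun_prop)) ?_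
  refine Eventually.of_forall fun t => ?_
  rw [norm_smul, neg_mul]
  exact mul_le_of_le_one_right (norm_nonneg _) (norm_ch_le t)

lemma integral_ch {a : ℝ} (ha : 0 < a) (s : ℝ) :
    ∫ t in Set.Ioi (0 : ℝ), Complex.exp (-(((a : ℂ) + (s : ℂ) * Complex.I) * (t : ℂ))) • ch t =
      res a s ha := by
  ext x
  have h := (ContinuousMap.evalCLM ℂ x).integral_comp_comm (integrableOn_ch ha s)
  have e : ∀ f : C(unitInterval, ℂ), ContinuousMap.evalCLM ℂ x f = f x := fun _ => rfl
  simp only [e] at h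
  rw [← h, res_apply]
  have h2 := integral_exp_mul_complex_Ioi
    (a := -((a : ℂ) + ((s - x : ℝ) : ℂ) * Complex.I)) (by simpa using ha) 0
  simp only [Complex.ofReal_zero, mul_zero, Complex.exp_zero, neg_div_neg_eq, one_div] at h2
  rw [← h2]
  refine integral_congr_ae (Eventually.of_forall fun t => ?_)
  simp only [ContinuousMap.smul_apply, ch_apply, smul_eq_mul]
  rw [← Complex.exp_add]
  congr 1
  push_cast; ring

lemma integrableOn_grp (g : Lp ℂ p (volume : Measure unitInterval)) {a : ℝ} (ha : 0 < a) (s : ℝ) :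
    IntegrableOn (fun t : ℝ =>
      Complex.exp (-(((a : ℂ) + (s : ℂ) * Complex.I) * (t : ℂ))) • grp p t g)
      (Set.Ioi (0 : ℝ)) := by
  have h := ((mulOp p).flip g).integrable_comp (integrableOn_ch ha s)
  refine h.congr (Eventually.of_forall fun t => ?_)
  simp [grp]

lemma integral_grp (g : Lp ℂ p (volume : Measure unitInterval)) {a : ℝ} (ha : 0 < a) (s : ℝ) :
    ∫ t in Set.Ioi (0 : ℝ), Complex.exp (-(((a : ℂ) + (s : ℂ) * Complex.I) * (t : ℂ))) • grp p t g =
      mulOp p (res a s ha) g := by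
  have h := ((mulOp p).flip g).integral_comp_comm (integrableOn_ch ha s)
  rw [integral_ch ha s, ContinuousLinearMap.flip_apply] at h
  rw [← h]
  refine integral_congr_ae (Eventually.of_forall fun t => ?_)
  simp [grp]

/-- the weight attached to a vector -/
noncomputable def wt (g : Lp ℂ p (volume : Measure unitInterval)) (x : unitInterval) : ℝ≥0∞ :=
  ‖g x‖ₑ ^ p.toReal

omit [Fact (1 ≤ p)] in
lemma measurable_wt (g : Lp ℂ p (volume : Measure unitInterval)) : Measurable (wt p g) :=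
  (Lp.stronglyMeasurable g).enorm.pow_const _

omit [Fact (1 ≤ p)] in
lemma wt_ne_top (g : Lp ℂ p (volume : Measure unitInterval)) (x : unitInterval) :
    wt p g x ≠ ∞ :=
  ENNReal.rpow_ne_top_of_nonneg ENNReal.toReal_nonneg enorm_ne_top

lemma p_ne_zero : p ≠ 0 := (zero_lt_one.trans_le (Fact.out : 1 ≤ p)).ne'

lemma enorm_eq_wt (hp : p ≠ ∞) (g : Lp ℂ p (volume : Measure unitInterval)) :
    ‖g‖ₑ = (∫⁻ x, wt p g x) ^ (1 / p.toReal) := by
  rw [Lp.enorm_def, eLpNorm_eq_lintegral_rpow_enorm_toReal (p_ne_zero p) hp]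
  rfl

lemma lintegral_wt_ne_top (hp : p ≠ ∞) (g : Lp ℂ p (volume : Measure unitInterval)) :
    ∫⁻ x, wt p g x ≠ ∞ := by
  intro h
  have h1 := enorm_eq_wt p hp g
  have hq : 0 < p.toReal := ENNReal.toReal_pos (p_ne_zero p) hp
  rw [h, ENNReal.top_rpow_of_pos (by positivity)] at h1
  exact enorm_ne_top h1

lemma enorm_res (hp : p ≠ ∞) (g : Lp ℂ p (volume : Measure unitInterval)) {a : ℝ} (ha : 0 < a)
    (s : ℝ) : ‖mulOp p (res a s ha) g‖ₑ = mQ (wt p g) p.toReal a s ^ (1 / p.toReal) := by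
  rw [Lp.enorm_def, eLpNorm_eq_lintegral_rpow_enorm_toReal (p_ne_zero p) hp]
  congr 1
  refine lintegral_congr_ae ?_
  filter_upwards [mulOp_ae p (res a s ha) g] with x hx
  rw [hx, enorm_mul, ENNReal.mul_rpow_of_nonneg _ _ ENNReal.toReal_nonneg, ← ofReal_norm,
    norm_res]
  rfl

lemma one_le_toReal (hp : p ≠ ∞) : 1 ≤ p.toReal := by
  have := ENNReal.toReal_mono hp (Fact.out : 1 ≤ p)
  simpa using this

lemma resolvent_eq (hp : p ≠ ∞) (g : Lp ℂ p (volume : Measure unitInterval)) {a : ℝ}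
    (ha : 0 < a) :
    ∫⁻ s : ℝ, ((‖∫ t in Set.Ioi (0 : ℝ),
        Complex.exp (-(((a : ℂ) + (s : ℂ) * Complex.I) * (t : ℂ))) • grp p t g‖₊ : ENNReal)) ^ 2 =
      ∫⁻ s : ℝ, (mQ (wt p g) p.toReal a s ^ (1 / p.toReal)) ^ 2 := by
  refine lintegral_congr fun s => ?_
  rw [integral_grp p g ha s, ← enorm_eq_nnnorm, enorm_res p hp g ha s]

omit [Fact (1 ≤ p)] in
lemma toReal_lt_two (hp : p < 2) : p.toReal < 2 := by
  have := ENNReal.toReal_strict_mono (by norm_num : (2 : ℝ≥0∞) ≠ ∞) hp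
  simpa using this

lemma resolvent_le (hp : p < 2) (g : Lp ℂ p (volume : Measure unitInterval)) {a : ℝ}
    (ha : 0 < a) :
    ENNReal.ofReal a * ∫⁻ s : ℝ, ((‖∫ t in Set.Ioi (0 : ℝ),
        Complex.exp (-(((a : ℂ) + (s : ℂ) * Complex.I) * (t : ℂ))) • grp p t g‖₊ : ENNReal)) ^ 2 ≤
      ENNReal.ofReal (Real.pi * ‖g‖ ^ 2) := by
  have hp' : p ≠ ∞ := ne_top_of_lt hp
  rw [resolvent_eq p hp' g ha]
  refine (main_le (measurable_wt p g) (one_le_toReal p hp') (toReal_lt_two p hp).le ha).trans ?_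
  rw [← enorm_eq_wt p hp' g, ENNReal.ofReal_mul Real.pi_pos.le,
    ENNReal.ofReal_pow (norm_nonneg _), ofReal_norm]

lemma resolvent_tendsto (hp : p < 2) (g : Lp ℂ p (volume : Measure unitInterval)) :
    Tendsto (fun a : ℝ => ENNReal.ofReal a * ∫⁻ s : ℝ, ((‖∫ t in Set.Ioi (0 : ℝ),
        Complex.exp (-(((a : ℂ) + (s : ℂ) * Complex.I) * (t : ℂ))) • grp p t g‖₊ : ENNReal)) ^ 2)
      (𝓝[>] (0 : ℝ)) (𝓝 0) := by
  have hp' : p ≠ ∞ := ne_top_of_lt hp
  refine (main_tendsto (measurable_wt p g) (lintegral_wt_ne_top p hp' g) (wt_ne_top p g)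
    (one_le_toReal p hp') (toReal_lt_two p hp)).congr' ?_
  filter_upwards [self_mem_nhdsWithin] with a ha
  rw [resolvent_eq p hp' g ha]

lemma not_stable (g : Lp ℂ p (volume : Measure unitInterval)) (hg : g ≠ 0) :
    ¬ Tendsto (fun t : ℝ => grp p t g) atTop (𝓝 0) := by
  intro h
  have h1 := h.norm
  simp only [norm_grp, norm_zero] at h1
  exact hg (norm_eq_zero.1 (tendsto_nhds_unique tendsto_const_nhds h1))

lemma exists_ne_zero : ∃ g : Lp ℂ p (volume : Measure unitInterval), g ≠ 0 := by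
  refine ⟨ContinuousMap.toLp p (volume : Measure unitInterval) ℂ 1, fun h => ?_⟩
  have h1 := ContinuousMap.coeFn_toLp (p := p) (μ := (volume : Measure unitInterval)) (𝕜 := ℂ)
    (1 : C(unitInterval, ℂ))
  rw [h] at h1
  have h2 : ∀ᵐ x : unitInterval, False := by
    filter_upwards [h1, Lp.coeFn_zero ℂ p (volume : Measure unitInterval)] with x h1 h2
    rw [h2] at h1
    simp at h1
  have h3 : (volume : Measure unitInterval) = 0 := by simpa using h2
  exact IsProbabilityMeasure.ne_zero _ h3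

end Pool.Agent.Lib.MP_ec63c8_an.Mult
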