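import Pool.Agent.Lib.MP_ec63c8_an.MultB

set_option autoImplicit false
open Filter Topology MeasureTheory
open scoped ENNReal

namespace Pool.Agent.Lib.MP_ec63c8_an.Sq

/-- the unit square -/
abbrev Q : Type := unitInterval × unitInterval

variable (p : ℝ≥0∞) [Fact (1 ≤ p)]

/-- multiplication by continuous functions on `L^p` of the square -/
noncomputable def mulOp : C(Q, ℂ) →L[ℂ]
    Lp ℂ p (volume : Measure Q) →L[ℂ] Lp ℂ p (volume : Measure Q) :=
  ((ContinuousLinearMap.mul ℂ ℂ).holderL (volume : Measure Q) ∞ p p).comp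
    (ContinuousMap.toLp ∞ (volume : Measure Q) ℂ)

lemma mulOp_ae (φ : C(Q, ℂ)) (g : Lp ℂ p (volume : Measure Q)) :
    (mulOp p φ g : Q → ℂ) =ᵐ[volume] fun x => φ x * g x := by
  have h1 := (ContinuousLinearMap.mul ℂ ℂ).coeFn_holder (r := p)
    (ContinuousMap.toLp ∞ (volume : Measure Q) ℂ φ) g
  have h2 := ContinuousMap.coeFn_toLp (p := ∞) (μ := (volume : Measure Q)) (𝕜 := ℂ) φ
  filter_upwards [h1, h2] with x h1 h2
  have e : mulOp p φ g = (ContinuousLinearMap.mul ℂ ℂ).holder p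
      (ContinuousMap.toLp ∞ (volume : Measure Q) ℂ φ) g := rfl
  rw [e, h1, h2]
  simp

lemma norm_mulOp_le (φ : C(Q, ℂ)) (g : Lp ℂ p (volume : Measure Q)) {C : ℝ}
    (h : ∀ x, ‖φ x‖ ≤ C) : ‖mulOp p φ g‖ ≤ C * ‖g‖ := by
  refine Lp.norm_le_mul_norm_of_ae_le_mul ?_
  filter_upwards [mulOp_ae p φ g] with x hx
  rw [hx, norm_mul]
  exact mul_le_mul_of_nonneg_right (h x) (norm_nonneg _)

/-- the symbol `i x - y ^ n` -/
noncomputable def sym (n : ℕ) (x : Q) : ℂ := Complex.I * ((x.1 : ℝ) : ℂ) - ((x.2 : ℝ) : ℂ) ^ n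

lemma continuous_sym (n : ℕ) : Continuous (sym n) := by
  unfold sym; fun_prop

lemma sym_re (n : ℕ) (x : Q) : (sym n x).re = -(x.2 : ℝ) ^ n := by
  simp [sym, ← Complex.ofReal_pow]

lemma sym_im (n : ℕ) (x : Q) : (sym n x).im = (x.1 : ℝ) := by
  simp [sym, ← Complex.ofReal_pow]

lemma pow_nonneg' (n : ℕ) (x : Q) : 0 ≤ (x.2 : ℝ) ^ n := pow_nonneg x.2.2.1 n

/-- the function `exp (t m)` -/
noncomputable def ch (n : ℕ) (t : ℝ) : C(Q, ℂ) :=
  ⟨fun x => Complex.exp ((t : ℂ) * sym n x), by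
    have := continuous_sym n
    fun_prop⟩

lemma ch_apply (n : ℕ) (t : ℝ) (x : Q) : ch n t x = Complex.exp ((t : ℂ) * sym n x) := rfl

lemma norm_ch_apply (n : ℕ) (t : ℝ) (x : Q) : ‖ch n t x‖ = Real.exp (-(t * (x.2 : ℝ) ^ n)) := by
  rw [ch_apply, Complex.norm_exp, Complex.re_ofReal_mul, sym_re, mul_neg]

lemma norm_ch_apply_le (n : ℕ) {t : ℝ} (ht : 0 ≤ t) (x : Q) : ‖ch n t x‖ ≤ 1 := by
  rw [norm_ch_apply, Real.exp_le_one_iff, neg_nonpos]
  exact mul_nonneg ht (pow_nonneg' n x)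

lemma norm_ch_le (n : ℕ) {t : ℝ} (ht : 0 ≤ t) : ‖ch n t‖ ≤ 1 :=
  (ContinuousMap.norm_le _ zero_le_one).2 fun x => norm_ch_apply_le n ht x

lemma continuous_ch (n : ℕ) : Continuous (ch n) := by
  refine ContinuousMap.continuous_of_continuous_uncurry (ch n) ?_
  have : Function.uncurry (fun t x => ch n t x) =
      fun q : ℝ × Q => Complex.exp ((q.1 : ℂ) * sym n q.2) := rfl
  rw [this]
  have := continuous_sym n
  fun_prop

/-- the multiplication semigroup -/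
noncomputable def sg (n : ℕ) (t : ℝ) :
    Lp ℂ p (volume : Measure Q) →L[ℂ] Lp ℂ p (volume : Measure Q) :=
  mulOp p (ch n t)

lemma sg_ae (n : ℕ) (t : ℝ) (g : Lp ℂ p (volume : Measure Q)) :
    (sg p n t g : Q → ℂ) =ᵐ[volume] fun x => Complex.exp ((t : ℂ) * sym n x) * g x :=
  mulOp_ae p (ch n t) g

lemma continuous_sg (n : ℕ) : Continuous (sg p n) := (mulOp p).continuous.comp (continuous_ch n)

lemma sg_zero (n : ℕ) : sg p n 0 = 1 := by
  ext1 g
  refine Lp.ext ?_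
  filter_upwards [sg_ae p n 0 g] with x hx
  rw [hx]; simp

lemma sg_add (n : ℕ) (s t : ℝ) : sg p n (s + t) = sg p n s * sg p n t := by
  ext1 g
  refine Lp.ext ?_
  filter_upwards [sg_ae p n (s + t) g, sg_ae p n s (sg p n t g), sg_ae p n t g] with x h1 h2 h3
  rw [h1, mul_apply_eq_comp, h2, h3, ← mul_assoc, ← Complex.exp_add]
  congr 2
  push_cast; ring

lemma norm_sg_le (n : ℕ) {t : ℝ} (ht : 0 ≤ t) : ‖sg p n t‖ ≤ 1 :=
  ContinuousLinearMap.opNorm_le_bound _ zero_le_one fun g =>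
    norm_mulOp_le p _ g (norm_ch_apply_le n ht)

lemma den_re (n : ℕ) (a s : ℝ) (x : Q) :
    ((a : ℂ) + (s : ℂ) * Complex.I - sym n x).re = a + (x.2 : ℝ) ^ n := by
  simp [sym_re]

lemma den_im (n : ℕ) (a s : ℝ) (x : Q) :
    ((a : ℂ) + (s : ℂ) * Complex.I - sym n x).im = s - (x.1 : ℝ) := by
  simp [sym_im]

/-- the scalar resolvent -/
noncomputable def res (n : ℕ) (a s : ℝ) (ha : 0 < a) : C(Q, ℂ) :=
  ⟨fun x => ((a : ℂ) + (s : ℂ) * Complex.I - sym n x)⁻¹, by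
    have := continuous_sym n
    refine Continuous.inv₀ (by fun_prop) fun x h => ?_
    have h1 := den_re n a s x
    rw [h, Complex.zero_re] at h1
    have := pow_nonneg' n x
    linarith⟩

lemma res_apply (n : ℕ) (a s : ℝ) (ha : 0 < a) (x : Q) :
    res n a s ha x = ((a : ℂ) + (s : ℂ) * Complex.I - sym n x)⁻¹ := rfl

lemma integrableOn_ch (n : ℕ) {a : ℝ} (ha : 0 < a) (s : ℝ) :
    IntegrableOn (fun t : ℝ =>
      Complex.exp (-(((a : ℂ) + (s : ℂ) * Complex.I) * (t : ℂ))) • ch n t) (Set.Ioi (0 : ℝ)) := by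
  have h0 : IntegrableOn (fun t : ℝ =>
      Complex.exp (-((a : ℂ) + (s : ℂ) * Complex.I) * (t : ℂ))) (Set.Ioi (0 : ℝ)) :=
    integrableOn_exp_mul_complex_Ioi (by simpa using ha) 0
  have hc := continuous_ch n
  refine Integrable.mono' h0.norm (Continuous.aestronglyMeasurable (by fun_prop)) ?_
  filter_upwards [ae_restrict_mem measurableSet_Ioi] with t ht
  rw [norm_smul, neg_mul]
  exact mul_le_of_le_one_right (norm_nonneg _) (norm_ch_le n (le_of_lt ht))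

lemma integral_ch (n : ℕ) {a : ℝ} (ha : 0 < a) (s : ℝ) :
    ∫ t in Set.Ioi (0 : ℝ), Complex.exp (-(((a : ℂ) + (s : ℂ) * Complex.I) * (t : ℂ))) • ch n t =
      res n a s ha := by
  ext x
  have h := (ContinuousMap.evalCLM ℂ x).integral_comp_comm (integrableOn_ch n ha s)
  have e : ∀ f : C(Q, ℂ), ContinuousMap.evalCLM ℂ x f = f x := fun _ => rfl
  simp only [e] at h
  rw [← h, res_apply]
  have h2 := integral_exp_mul_complex_Ioi
    (a := -((a : ℂ) + (s : ℂ) * Complex.I - sym n x))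
    (by
      rw [Complex.neg_re, den_re]
      have := pow_nonneg' n x
      linarith) 0
  simp only [Complex.ofReal_zero, mul_zero, Complex.exp_zero, neg_div_neg_eq, one_div] at h2
  rw [← h2]
  refine integral_congr_ae (Eventually.of_forall fun t => ?_)
  simp only [ContinuousMap.smul_apply, ch_apply, smul_eq_mul]
  rw [← Complex.exp_add]
  congr 1
  ring

lemma integrableOn_sg (n : ℕ) (g : Lp ℂ p (volume : Measure Q)) {a : ℝ} (ha : 0 < a) (s : ℝ) :
    IntegrableOn (fun t : ℝ =>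
      Complex.exp (-(((a : ℂ) + (s : ℂ) * Complex.I) * (t : ℂ))) • sg p n t g)
      (Set.Ioi (0 : ℝ)) := by
  have h := ((mulOp p).flip g).integrable_comp (integrableOn_ch n ha s)
  refine h.congr (Eventually.of_forall fun t => ?_)
  simp [sg]

lemma integral_sg (n : ℕ) (g : Lp ℂ p (volume : Measure Q)) {a : ℝ} (ha : 0 < a) (s : ℝ) :
    ∫ t in Set.Ioi (0 : ℝ),
      Complex.exp (-(((a : ℂ) + (s : ℂ) * Complex.I) * (t : ℂ))) • sg p n t g =
      mulOp p (res n a s ha) g := by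
  have h := ((mulOp p).flip g).integral_comp_comm (integrableOn_ch n ha s)
  rw [integral_ch n ha s, ContinuousLinearMap.flip_apply] at h
  rw [← h]
  refine integral_congr_ae (Eventually.of_forall fun t => ?_)
  simp [sg]

lemma norm_res_sq (n : ℕ) (a s : ℝ) (ha : 0 < a) (x : Q) :
    ‖res n a s ha x‖ ^ 2 = ((a + (x.2 : ℝ) ^ n) ^ 2 + (s - (x.1 : ℝ)) ^ 2)⁻¹ := by
  rw [res_apply, norm_inv, inv_pow, Complex.sq_norm, Complex.normSq_apply, den_re, den_im]
  congr 1; ring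

lemma norm_res_sq_le (n : ℕ) (a s : ℝ) (ha : 0 < a) (x : Q) :
    ‖res n a s ha x‖ ^ 2 ≤ (3 / a ^ 2 + 2) * (1 + s ^ 2)⁻¹ := by
  rw [norm_res_sq]
  have h0 := pow_nonneg' n x
  have h1 : (0 : ℝ) ≤ x.1 := x.1.2.1
  have h2 : (x.1 : ℝ) ≤ 1 := x.1.2.2
  set y := (x.2 : ℝ) ^ n
  set u := (x.1 : ℝ)
  have ha2 : 0 < a ^ 2 := by positivity
  have hd : 0 < (a + y) ^ 2 + (s - u) ^ 2 := by positivity
  rw [← div_eq_mul_inv, inv_eq_one_div, div_le_div_iff₀ hd (by positivity)]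
  have e1 : 1 + s ^ 2 ≤ 3 + 2 * (s - u) ^ 2 := by nlinarith [sq_nonneg (s - 2 * u)]
  have e2 : a ^ 2 ≤ (a + y) ^ 2 := by nlinarith
  have e3 : 3 / a ^ 2 * a ^ 2 = 3 := by field_simp
  have e4 : 0 ≤ 3 / a ^ 2 := by positivity
  nlinarith [mul_le_mul_of_nonneg_left e2 e4, mul_nonneg e4 (sq_nonneg (s - u)), sq_nonneg (a + y)]

lemma resolvent_lt_top (n : ℕ) (g : Lp ℂ p (volume : Measure Q)) {a : ℝ} (ha : 0 < a) :
    ∫⁻ s : ℝ, ((‖∫ t in Set.Ioi (0 : ℝ),
        Complex.exp (-(((a : ℂ) + (s : ℂ) * Complex.I) * (t : ℂ))) • sg p n t g‖₊ : ENNReal)) ^ 2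
      < ∞ := by
  have hi : Integrable (fun s : ℝ => (3 / a ^ 2 + 2) * (1 + s ^ 2)⁻¹ * ‖g‖ ^ 2) :=
    (integrable_inv_one_add_sq.const_mul _).mul_const _
  refine lt_of_le_of_lt (lintegral_mono fun s => ?_) hi.lintegral_lt_top
  rw [integral_sg p n g ha s, ← enorm_eq_nnnorm, ← ofReal_norm,
    ← ENNReal.ofReal_pow (norm_nonneg _)]
  refine ENNReal.ofReal_le_ofReal ?_
  have hc : 0 ≤ (3 / a ^ 2 + 2) * (1 + s ^ 2)⁻¹ := by positivity
  have h := norm_mulOp_le p (res n a s ha) g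
    (fun x => Real.le_sqrt_of_sq_le (norm_res_sq_le n a s ha x))
  calc ‖mulOp p (res n a s ha) g‖ ^ 2
      ≤ (Real.sqrt ((3 / a ^ 2 + 2) * (1 + s ^ 2)⁻¹) * ‖g‖) ^ 2 := by gcongr
    _ = _ := by rw [mul_pow, Real.sq_sqrt hc]

lemma ae_snd_pos : ∀ᵐ x : Q, (0 : ℝ) < x.2 := by
  have h : ∀ᵐ y : unitInterval, (0 : ℝ) < y := by
    have : ∀ᵐ y : unitInterval, y ≠ 0 := by
      rw [ae_iff]
      simp
    filter_upwards [this] with y hy
    exact lt_of_le_of_ne y.2.1 fun h => hy (Subtype.ext h.symm)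
  exact (Measure.quasiMeasurePreserving_snd (μ := (volume : Measure unitInterval))
    (ν := (volume : Measure unitInterval))).ae h

lemma stable (hp : p ≠ ∞) (n : ℕ) (g : Lp ℂ p (volume : Measure Q)) :
    Tendsto (fun t : ℝ => sg p n t g) atTop (𝓝 0) := by
  have hp0 : p ≠ 0 := Mult.p_ne_zero p
  have hq : 0 < p.toReal := ENNReal.toReal_pos hp0 hp
  have hg : Measurable (fun x : Q => ‖g x‖ₑ ^ p.toReal) :=
    (Lp.stronglyMeasurable g).enorm.pow_const _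
  have hfin : ∫⁻ x : Q, ‖g x‖ₑ ^ p.toReal ≠ ∞ :=
    (lintegral_rpow_enorm_lt_top_of_eLpNorm_lt_top hp0 hp (Lp.eLpNorm_lt_top g)).ne
  have h := tendsto_lintegral_filter_of_dominated_convergence (μ := (volume : Measure Q))
    (l := (atTop : Filter ℝ))
    (F := fun (t : ℝ) (x : Q) =>
      ENNReal.ofReal (Real.exp (-(t * (x.2 : ℝ) ^ n))) ^ p.toReal * ‖g x‖ₑ ^ p.toReal)
    (f := fun _ => 0) (fun x => ‖g x‖ₑ ^ p.toReal)
    (Eventually.of_forall fun t => by fun_prop)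
    (by
      filter_upwards [eventually_ge_atTop (0 : ℝ)] with t ht
      refine Eventually.of_forall fun x => ?_
      refine mul_le_of_le_one_left' (ENNReal.rpow_le_one ?_ hq.le)
      rw [← norm_ch_apply]
      exact ENNReal.ofReal_le_one.2 (norm_ch_apply_le n ht x))
    hfin
    (by
      filter_upwards [ae_snd_pos] with x hx
      have h1 : Tendsto (fun t : ℝ => Real.exp (-(t * (x.2 : ℝ) ^ n))) atTop (𝓝 0) :=
        Real.tendsto_exp_neg_atTop_nhds_zero.comp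
          (tendsto_id.atTop_mul_const (pow_pos hx n))
      have h2 := (ENNReal.continuous_ofReal.tendsto 0).comp h1
      rw [ENNReal.ofReal_zero] at h2
      have h3 := ((ENNReal.continuous_rpow_const (y := p.toReal)).tendsto 0).comp h2
      rw [ENNReal.zero_rpow_of_pos hq] at h3
      have h4 := ENNReal.Tendsto.mul_const (b := ‖g x‖ₑ ^ p.toReal) h3
        (Or.inr (ENNReal.rpow_ne_top_of_nonneg hq.le enorm_ne_top))
      simpa using h4)
  rw [lintegral_zero] at h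
  have h5 := ((ENNReal.continuous_rpow_const (y := 1 / p.toReal)).tendsto 0).comp h
  rw [ENNReal.zero_rpow_of_pos (by positivity)] at h5
  rw [tendsto_zero_iff_enorm_tendsto_zero]
  refine h5.congr fun t => ?_
  rw [Lp.enorm_def, eLpNorm_eq_lintegral_rpow_enorm_toReal hp0 hp]
  simp only [Function.comp]
  congr 1
  refine lintegral_congr_ae ?_
  filter_upwards [sg_ae p n t g] with x hx
  rw [hx, enorm_mul, ENNReal.mul_rpow_of_nonneg _ _ hq.le, ← ch_apply, ← norm_ch_apply,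
    ofReal_norm]

/-- the constant function one -/
noncomputable def one : Lp ℂ p (volume : Measure Q) :=
  ContinuousMap.toLp p (volume : Measure Q) ℂ 1

lemma one_ae : (one p : Q → ℂ) =ᵐ[volume] fun _ => 1 :=
  ContinuousMap.coeFn_toLp (p := p) (μ := (volume : Measure Q)) (𝕜 := ℂ) (1 : C(Q, ℂ))

lemma res_lower (hp : p ≠ ∞) {n : ℕ} (hn : 1 ≤ n) {b s : ℝ} (hb : 0 < b) (hb2 : b ≤ 1 / 2)
    (hs : s ∈ Set.Icc (0 : ℝ) (1 / 2)) :
    ENNReal.ofReal ((3 * b ^ n)⁻¹ * (b ^ n * b) ^ (1 / p.toReal)) ≤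
      ‖mulOp p (res n (b ^ n) s (pow_pos hb n)) (one p)‖ₑ := by
  have hp0 : p ≠ 0 := Mult.p_ne_zero p
  have hq : 0 < p.toReal := ENNReal.toReal_pos hp0 hp
  have ha : 0 < b ^ n := pow_pos hb n
  have hab : b ^ n ≤ b := pow_le_of_le_one hb.le (by linarith) (by omega)
  set a := b ^ n with hadef
  let s0 : unitInterval := ⟨s, hs.1, by linarith [hs.2]⟩
  let s1 : unitInterval := ⟨s + a, by linarith [hs.1], by linarith [hs.2]⟩
  let b0 : unitInterval := ⟨b, hb.le, by linarith⟩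
  let S : Set Q := Set.Icc s0 s1 ×ˢ Set.Iic b0
  have hS : MeasurableSet S := measurableSet_Icc.prod measurableSet_Iic
  have hvol : (volume : Measure Q) S = ENNReal.ofReal (a * b) := by
    rw [Measure.volume_eq_prod, Measure.prod_prod, unitInterval.volume_Icc,
      unitInterval.volume_Iic, ENNReal.ofReal_mul ha.le]
    simp [s0, s1, b0]
  have h1 := eLpNorm_indicator_const (μ := (volume : Measure Q)) (p := p)
    (c := (3 * a)⁻¹) hS hp0 hp
  rw [hvol, ENNReal.ofReal_rpow_of_nonneg (by positivity) (by positivity), ← ofReal_norm,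
    Real.norm_of_nonneg (by positivity), ← ENNReal.ofReal_mul (by positivity)] at h1
  rw [← h1, Lp.enorm_def]
  refine eLpNorm_mono_ae ?_
  filter_upwards [mulOp_ae p (res n a s ha) (one p), one_ae p] with x hx hx1
  rw [hx, hx1, mul_one]
  by_cases hxS : x ∈ S
  · rw [Set.indicator_of_mem hxS, Real.norm_of_nonneg (by positivity)]
    have k1 : s ≤ (x.1 : ℝ) := hxS.1.1
    have k2 : (x.1 : ℝ) ≤ s + a := hxS.1.2
    have k3 : (x.2 : ℝ) ≤ b := hxS.2
    have k4 : (x.2 : ℝ) ^ n ≤ a := pow_le_pow_left₀ x.2.2.1 k3 n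
    have k5 := pow_nonneg' n x
    refine le_of_sq_le_sq ?_ (norm_nonneg _)
    rw [norm_res_sq, inv_pow]
    refine inv_anti₀ (by positivity) ?_
    nlinarith
  · rw [Set.indicator_of_notMem hxS, norm_zero]
    exact norm_nonneg _

lemma resolvent_lower (hp : p ≠ ∞) {n : ℕ} (hn : 1 ≤ n) (hnq : ((n : ℝ) + 1) * 2 / p.toReal ≤ n)
    {b : ℝ} (hb : 0 < b) (hb2 : b ≤ 1 / 2) :
    ENNReal.ofReal (1 / 18) ≤ ENNReal.ofReal (b ^ n) * ∫⁻ s : ℝ, ((‖∫ t in Set.Ioi (0 : ℝ),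
        Complex.exp (-((((b ^ n : ℝ) : ℂ) + (s : ℂ) * Complex.I) * (t : ℂ))) •
          sg p n t (one p)‖₊ : ENNReal)) ^ 2 := by
  have ha : 0 < b ^ n := pow_pos hb n
  set c : ℝ := (3 * b ^ n)⁻¹ * (b ^ n * b) ^ (1 / p.toReal) with hc
  have hc0 : 0 ≤ c := by positivity
  have h1 : ENNReal.ofReal (c ^ 2) * ENNReal.ofReal (1 / 2) ≤ ∫⁻ s : ℝ, ((‖∫ t in Set.Ioi (0 : ℝ),
        Complex.exp (-((((b ^ n : ℝ) : ℂ) + (s : ℂ) * Complex.I) * (t : ℂ))) •
          sg p n t (one p)‖₊ : ENNReal)) ^ 2 := by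
    have e : ENNReal.ofReal (c ^ 2) * ENNReal.ofReal (1 / 2) =
        ∫⁻ s : ℝ, (Set.Icc (0 : ℝ) (1 / 2)).indicator (fun _ => ENNReal.ofReal (c ^ 2)) s := by
      rw [lintegral_indicator_const measurableSet_Icc, Real.volume_Icc, sub_zero]
    rw [e]
    refine lintegral_mono fun s => ?_
    by_cases hs : s ∈ Set.Icc (0 : ℝ) (1 / 2)
    · rw [Set.indicator_of_mem hs, integral_sg p n (one p) ha s, ← enorm_eq_nnnorm,
        ENNReal.ofReal_pow hc0]
      gcongr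
      exact res_lower p hp hn hb hb2 hs
    · rw [Set.indicator_of_notMem hs]
      exact zero_le
  refine le_trans ?_ (mul_le_mul' le_rfl h1)
  rw [← ENNReal.ofReal_mul (by positivity), ← ENNReal.ofReal_mul ha.le]
  refine ENNReal.ofReal_le_ofReal ?_
  have h2 : b ^ n ≤ ((b ^ n * b) ^ (1 / p.toReal)) ^ 2 := by
    rw [← pow_succ, ← Real.rpow_natCast b (n + 1), ← Real.rpow_natCast _ 2, ← Real.rpow_mul hb.le,
      ← Real.rpow_mul hb.le, ← Real.rpow_natCast b n]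
    refine Real.rpow_le_rpow_of_exponent_ge hb (by linarith) (le_trans (le_of_eq ?_) hnq)
    push_cast; ring
  have h3 : b ^ n * (c ^ 2 * (1 / 2)) = ((b ^ n * b) ^ (1 / p.toReal)) ^ 2 / (18 * b ^ n) := by
    rw [hc]; field_simp; ring
  rw [h3, le_div_iff₀ (by positivity)]
  linarith

omit [Fact (1 ≤ p)] in
lemma exists_n (hp2 : 2 < p) (hp : p ≠ ∞) :
    ∃ n : ℕ, 1 ≤ n ∧ ((n : ℝ) + 1) * 2 / p.toReal ≤ n := by
  have hq : 2 < p.toReal := by
    have := ENNReal.toReal_strict_mono hp hp2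
    simpa using this
  obtain ⟨n, hn⟩ := exists_nat_gt (2 / (p.toReal - 2))
  have hpos : 0 < 2 / (p.toReal - 2) := div_pos two_pos (by linarith)
  refine ⟨n, ?_, ?_⟩
  · have : (0 : ℝ) < n := hpos.trans hn
    exact_mod_cast this
  · rw [div_lt_iff₀ (by linarith)] at hn
    rw [div_le_iff₀ (by linarith)]
    nlinarith

lemma not_resolvent (hp : p ≠ ∞) {n : ℕ} (hn : 1 ≤ n) (hnq : ((n : ℝ) + 1) * 2 / p.toReal ≤ n) :
    ¬ Tendsto (fun a : ℝ => ENNReal.ofReal a * ∫⁻ s : ℝ, ((‖∫ t in Set.Ioi (0 : ℝ),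
        Complex.exp (-(((a : ℂ) + (s : ℂ) * Complex.I) * (t : ℂ))) •
          sg p n t (one p)‖₊ : ENNReal)) ^ 2) (𝓝[>] (0 : ℝ)) (𝓝 0) := by
  intro h
  have hb : Tendsto (fun b : ℝ => b ^ n) (𝓝[>] (0 : ℝ)) (𝓝[>] (0 : ℝ)) := by
    refine tendsto_nhdsWithin_iff.2 ⟨?_, ?_⟩
    · have := ((continuous_pow n).tendsto (0 : ℝ)).mono_left
        (nhdsWithin_le_nhds (s := Set.Ioi (0 : ℝ)))
      rwa [zero_pow (by omega)] at this
    · filter_upwards [self_mem_nhdsWithin] with b hb using pow_pos (show (0 : ℝ) < b from hb) n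
  have h1 := (h.comp hb).eventually (gt_mem_nhds (show (0 : ℝ≥0∞) < ENNReal.ofReal (1 / 18) by
    rw [ENNReal.ofReal_pos]; norm_num))
  have h2 : ∀ᶠ b : ℝ in 𝓝[>] (0 : ℝ), b ∈ Set.Ioc (0 : ℝ) (1 / 2) :=
    Ioc_mem_nhdsGT (by norm_num)
  obtain ⟨b, hb1, hb2⟩ := (h1.and h2).exists
  exact absurd (resolvent_lower p hp hn hnq hb2.1 hb2.2) (not_le.2 hb1)

end Pool.Agent.Lib.MP_ec63c8_an.Sq
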