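import Mathlib

/-!
The translation group on `C₀(ℝ, ℂ)` and the vector `u ↦ 1 / (1 + u ^ 2)`:
its resolvent satisfies `‖R(a + i s) f‖ ≤ C / |1 + a + i s|` uniformly in `a > 0`,
while the orbit has constant norm.
-/

set_option autoImplicit false
open Filter Topology MeasureTheory Set
open scoped ZeroAtInfty

namespace Pool.Agent.Lib.MP_ec63c8_an

/-- The Banach space of continuous functions on the line vanishing at infinity. -/
abbrev C0 : Type := C₀(ℝ, ℂ)

lemma norm_apply_le (f : C0) (u : ℝ) : ‖f u‖ ≤ ‖f‖ := by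
  have := BoundedContinuousFunction.norm_coe_le_norm f.toBCF u
  simpa using this

lemma norm_le_of (f : C0) {C : ℝ} (hC : 0 ≤ C) (h : ∀ u, ‖f u‖ ≤ C) : ‖f‖ ≤ C := by
  rw [← ZeroAtInftyContinuousMap.norm_toBCF_eq_norm]
  exact (BoundedContinuousFunction.norm_le hC).2 (fun u => by simpa using h u)

/-- Evaluation at a point. -/
noncomputable def ev (u : ℝ) : C0 →L[ℂ] ℂ :=
  LinearMap.mkContinuous
    { toFun := fun f => f u
      map_add' := fun _ _ => rfl
      map_smul' := fun _ _ => rfl } 1 (fun f => by simpa using norm_apply_le f u)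

@[simp] lemma ev_apply (u : ℝ) (f : C0) : ev u f = f u := rfl

/-- Translation `f ↦ f (· + t)`. -/
noncomputable def shift (t : ℝ) : C0 →L[ℂ] C0 :=
  LinearMap.mkContinuous
    (ZeroAtInftyContinuousMap.compLinearMap (Homeomorph.addRight t).toCocompactMap) 1
    (fun f => by
      rw [one_mul]
      exact norm_le_of _ (norm_nonneg _) (fun u => norm_apply_le f (u + t)))

@[simp] lemma shift_apply (t : ℝ) (f : C0) (u : ℝ) : shift t f u = f (u + t) := rfl

lemma shift_zero : shift 0 = 1 := by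
  ext f u
  simp

lemma shift_add (s t : ℝ) : shift (s + t) = shift s * shift t := by
  ext f u
  simp [add_assoc]

lemma norm_shift (t : ℝ) (f : C0) : ‖shift t f‖ = ‖f‖ := by
  apply le_antisymm
  · exact norm_le_of _ (norm_nonneg _) (fun u => norm_apply_le f (u + t))
  · refine norm_le_of _ (norm_nonneg _) (fun u => ?_)
    have := norm_apply_le (shift t f) (u - t)
    simpa using this

lemma norm_shift_le (t : ℝ) : ‖shift t‖ ≤ 1 :=
  ContinuousLinearMap.opNorm_le_bound _ zero_le_one (fun f => by simp [norm_shift])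

lemma continuous_shift (f : C0) : Continuous (fun t : ℝ => shift t f) := by
  rw [Metric.continuous_iff]
  intro t ε hε
  have hu : UniformContinuous (f : ℝ → ℂ) := ZeroAtInftyContinuousMap.uniformContinuous f
  rw [Metric.uniformContinuous_iff] at hu
  obtain ⟨δ, hδ, h⟩ := hu (ε / 2) (half_pos hε)
  refine ⟨δ, hδ, fun s hs => ?_⟩
  rw [dist_eq_norm]
  refine lt_of_le_of_lt (norm_le_of _ (half_pos hε).le (fun u => ?_)) (half_lt_self hε)
  have h1 : dist (u + s) (u + t) < δ := by simpa using hs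
  have h2 := (h h1).le
  rw [dist_eq_norm] at h2
  simpa using h2

/-- The vector `u ↦ 1 / (1 + u ^ 2)`. -/
noncomputable def bump : C0 where
  toFun := fun u => (((1 + u ^ 2)⁻¹ : ℝ) : ℂ)
  continuous_toFun := by
    refine Complex.continuous_ofReal.comp (Continuous.inv₀ (by fun_prop) (fun u => by positivity))
  zero_at_infty' := by
    have h1 : Tendsto (fun u : ℝ => 1 + u ^ 2) (cocompact ℝ) atTop := by
      have h0 : Tendsto (fun u : ℝ => ‖u‖ ^ 2) (cocompact ℝ) atTop :=
        (tendsto_pow_atTop two_ne_zero).comp tendsto_norm_cocompact_atTop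
      have h2 : Tendsto (fun u : ℝ => u ^ 2) (cocompact ℝ) atTop := by
        simpa using h0
      exact tendsto_atTop_add_const_left _ _ h2
    have h2 := h1.inv_tendsto_atTop
    have h3 := (Complex.continuous_ofReal.tendsto 0).comp h2
    rw [Complex.ofReal_zero] at h3
    exact h3

lemma bump_apply (u : ℝ) : bump u = (((1 + u ^ 2)⁻¹ : ℝ) : ℂ) := rfl

lemma one_le_norm_bump : 1 ≤ ‖bump‖ := by
  have := norm_apply_le bump 0
  simpa [bump_apply] using this

lemma not_stable : ¬ Tendsto (fun t : ℝ => shift t bump) atTop (𝓝 0) := by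
  intro h
  have h1 := h.norm
  simp only [norm_shift, norm_zero] at h1
  have h2 := tendsto_nhds_unique h1 tendsto_const_nhds
  linarith [one_le_norm_bump]

lemma norm_exp_neg (a s t : ℝ) :
    ‖Complex.exp (-(((a : ℂ) + (s : ℂ) * Complex.I) * (t : ℂ)))‖ = Real.exp (-a * t) := by
  rw [Complex.norm_exp]
  congr 1
  simp

lemma integrableOn_laplace (f : C0) {a : ℝ} (ha : 0 < a) (s : ℝ) :
    IntegrableOn (fun t : ℝ =>
      Complex.exp (-(((a : ℂ) + (s : ℂ) * Complex.I) * (t : ℂ))) • shift t f) (Ioi 0) := by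
  have hc : Continuous (fun t : ℝ =>
      Complex.exp (-(((a : ℂ) + (s : ℂ) * Complex.I) * (t : ℂ))) • shift t f) := by
    have h1 : Continuous (fun t : ℝ =>
      Complex.exp (-(((a : ℂ) + (s : ℂ) * Complex.I) * (t : ℂ)))) := by fun_prop
    exact h1.smul (continuous_shift f)
  refine Integrable.mono' ((exp_neg_integrableOn_Ioi 0 ha).mul_const ‖f‖)
    hc.aestronglyMeasurable (Eventually.of_forall fun t => ?_)
  rw [norm_smul, norm_exp_neg, norm_shift]

/-- The scalar estimate, by one integration by parts. -/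
lemma laplace_bump_le {a : ℝ} (ha : 0 < a) (s u : ℝ) :
    ‖(1 + ((a : ℂ) + (s : ℂ) * Complex.I))‖ *
      ‖∫ t in Ioi (0 : ℝ), Complex.exp (-(((a : ℂ) + (s : ℂ) * Complex.I) * (t : ℂ))) *
        (((1 + (u + t) ^ 2)⁻¹ : ℝ) : ℂ)‖ ≤ 1 + 2 * Real.pi := by
  set l : ℂ := (a : ℂ) + (s : ℂ) * Complex.I with hl
  set g : ℝ → ℝ := fun t => (1 + (u + t) ^ 2)⁻¹ with hg
  set g' : ℝ → ℝ := fun t => -(2 * (u + t)) / (1 + (u + t) ^ 2) ^ 2 with hg'
  have hpos : ∀ t : ℝ, 0 < 1 + (u + t) ^ 2 := fun t => by positivity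
  have hgd : ∀ t, HasDerivAt g (g' t) t := by
    intro t
    have h1 : HasDerivAt (fun t : ℝ => 1 + (u + t) ^ 2) (2 * (u + t)) t := by
      have := (((hasDerivAt_id t).const_add u).pow 2).const_add 1
      simpa using this
    exact h1.inv (hpos t).ne'
  have hgc : Continuous g := Continuous.inv₀ (by fun_prop) (fun t => (hpos t).ne')
  have hg'c : Continuous g' :=
    Continuous.div (by fun_prop) (by fun_prop) (fun t => (pow_pos (hpos t) 2).ne')
  have hg0 : ∀ t, 0 ≤ g t := fun t => (inv_pos.2 (hpos t)).le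
  have hg1 : ∀ t, g t ≤ 1 := fun t => inv_le_one_of_one_le₀ (by nlinarith [sq_nonneg (u + t)])
  have hg'le : ∀ t, |g' t| ≤ g t := by
    intro t
    have h1 : |2 * (u + t)| ≤ 1 + (u + t) ^ 2 := by
      rw [abs_le]
      constructor <;> nlinarith [sq_nonneg (u + t - 1), sq_nonneg (u + t + 1)]
    simp only [hg, hg']
    rw [abs_div, abs_neg, abs_of_pos (pow_pos (hpos t) 2), div_le_iff₀ (pow_pos (hpos t) 2)]
    calc |2 * (u + t)| ≤ 1 + (u + t) ^ 2 := h1
      _ = (1 + (u + t) ^ 2)⁻¹ * (1 + (u + t) ^ 2) ^ 2 := by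
        field_simp
  have hgi : Integrable g := by
    have := integrable_inv_one_add_sq.comp_add_left u
    exact this
  have hgint : ∫ t, g t = Real.pi := by
    have := integral_add_left_eq_self (μ := (volume : Measure ℝ)) (fun x : ℝ => (1 + x ^ 2)⁻¹) u
    rw [← integral_univ_inv_one_add_sq, ← this]
  have hE : ∀ t : ℝ, 0 < t → ‖Complex.exp (-(l * (t : ℂ)))‖ ≤ 1 := by
    intro t ht
    rw [hl, norm_exp_neg]
    exact Real.exp_le_one_iff.2 (by nlinarith)
  have hEc : Continuous (fun t : ℝ => Complex.exp (-(l * (t : ℂ)))) := by fun_prop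
  have hi1 : IntegrableOn (fun t : ℝ => Complex.exp (-(l * (t : ℂ))) * (g t : ℂ)) (Ioi 0) := by
    refine Integrable.mono' hgi.integrableOn
      (hEc.mul (Complex.continuous_ofReal.comp hgc)).aestronglyMeasurable ?_
    filter_upwards [ae_restrict_mem measurableSet_Ioi] with t ht
    rw [norm_mul, Complex.norm_real, Real.norm_of_nonneg (hg0 t)]
    exact mul_le_of_le_one_left (hg0 t) (hE t ht)
  have hi2 : IntegrableOn (fun t : ℝ => Complex.exp (-(l * (t : ℂ))) * (g' t : ℂ)) (Ioi 0) := by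
    refine Integrable.mono' hgi.integrableOn
      (hEc.mul (Complex.continuous_ofReal.comp hg'c)).aestronglyMeasurable ?_
    filter_upwards [ae_restrict_mem measurableSet_Ioi] with t ht
    rw [norm_mul, Complex.norm_real, Real.norm_eq_abs]
    exact (mul_le_of_le_one_left (abs_nonneg _) (hE t ht)).trans (hg'le t)
  have hder : ∀ t ∈ Ici (0 : ℝ), HasDerivAt (fun t : ℝ => Complex.exp (-(l * (t : ℂ))) * (g t : ℂ))
      (-l * (Complex.exp (-(l * (t : ℂ))) * (g t : ℂ)) +
        Complex.exp (-(l * (t : ℂ))) * (g' t : ℂ)) t := by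
    intro t _
    have h1 : HasDerivAt (fun t : ℝ => -(l * (t : ℂ))) (-l) t := by
      have := ((hasDerivAt_id t).ofReal_comp.const_mul l).fun_neg
      simpa using this
    have h2 := h1.cexp
    have h3 := (hgd t).ofReal_comp
    have h4 := h2.fun_mul h3
    refine h4.congr_deriv ?_
    ring
  have hlim : Tendsto (fun t : ℝ => Complex.exp (-(l * (t : ℂ))) * (g t : ℂ)) atTop (𝓝 0) := by
    rw [tendsto_zero_iff_norm_tendsto_zero]
    have h0 : Tendsto (fun t : ℝ => Real.exp (-a * t)) atTop (𝓝 0) :=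
      Real.tendsto_exp_atBot.comp (tendsto_id.const_mul_atTop_of_neg (neg_neg_iff_pos.2 ha))
    refine squeeze_zero (fun t => norm_nonneg _) (fun t => ?_) h0
    rw [norm_mul, hl, norm_exp_neg, Complex.norm_real, Real.norm_of_nonneg (hg0 t)]
    exact mul_le_of_le_one_right (Real.exp_pos _).le (hg1 t)
  have hibp := integral_Ioi_of_hasDerivAt_of_tendsto' hder ((hi1.const_mul (-l)).add hi2) hlim
  rw [integral_add (hi1.const_mul (-l)) hi2, integral_const_mul] at hibp
  set I1 : ℂ := ∫ t in Ioi (0 : ℝ), Complex.exp (-(l * (t : ℂ))) * (g t : ℂ) with hI1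
  set I2 : ℂ := ∫ t in Ioi (0 : ℝ), Complex.exp (-(l * (t : ℂ))) * (g' t : ℂ) with hI2
  have hkey : (1 + l) * I1 = (g 0 : ℂ) + I1 + I2 := by
    simp only [Complex.ofReal_zero, mul_zero, neg_zero, Complex.exp_zero, one_mul] at hibp
    linear_combination (-1 : ℂ) * hibp
  have hIoi : ∫ t in Ioi (0 : ℝ), g t ≤ Real.pi := by
    rw [← hgint]
    exact setIntegral_le_integral hgi (Eventually.of_forall hg0)
  have hn1 : ‖I1‖ ≤ Real.pi := by
    refine le_trans (norm_integral_le_of_norm_le hgi.integrableOn ?_) hIoi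
    filter_upwards [ae_restrict_mem measurableSet_Ioi] with t ht
    rw [norm_mul, Complex.norm_real, Real.norm_of_nonneg (hg0 t)]
    exact mul_le_of_le_one_left (hg0 t) (hE t ht)
  have hn2 : ‖I2‖ ≤ Real.pi := by
    refine le_trans (norm_integral_le_of_norm_le hgi.integrableOn ?_) hIoi
    filter_upwards [ae_restrict_mem measurableSet_Ioi] with t ht
    rw [norm_mul, Complex.norm_real, Real.norm_eq_abs]
    exact (mul_le_of_le_one_left (abs_nonneg _) (hE t ht)).trans (hg'le t)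
  have hn0 : ‖(g 0 : ℂ)‖ ≤ 1 := by
    rw [Complex.norm_real, Real.norm_of_nonneg (hg0 0)]
    exact hg1 0
  rw [← norm_mul, hkey]
  calc ‖(g 0 : ℂ) + I1 + I2‖ ≤ ‖(g 0 : ℂ)‖ + ‖I1‖ + ‖I2‖ := norm_add₃_le
    _ ≤ 1 + 2 * Real.pi := by linarith

/-- The resolvent bound in the sup norm. -/
lemma norm_resolvent_sq_le {a : ℝ} (ha : 0 < a) (s : ℝ) :
    ‖∫ t in Ioi (0 : ℝ),
      Complex.exp (-(((a : ℂ) + (s : ℂ) * Complex.I) * (t : ℂ))) • shift t bump‖ ^ 2 ≤
      (1 + 2 * Real.pi) ^ 2 * (1 + s ^ 2)⁻¹ := by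
  set l : ℂ := (a : ℂ) + (s : ℂ) * Complex.I with hl
  have hsq : 1 + s ^ 2 ≤ ‖1 + l‖ ^ 2 := by
    rw [Complex.sq_norm, Complex.normSq_apply]
    simp [hl]
    nlinarith
  have hs : 0 < 1 + s ^ 2 := by positivity
  have hlpos : 0 < ‖1 + l‖ := by
    by_contra h
    have h0 : ‖1 + l‖ = 0 := le_antisymm (not_lt.1 h) (norm_nonneg _)
    rw [h0] at hsq
    nlinarith
  have hC : 0 ≤ 1 + 2 * Real.pi := by positivity
  have h1 : ‖∫ t in Ioi (0 : ℝ), Complex.exp (-(l * (t : ℂ))) • shift t bump‖ ≤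
      (1 + 2 * Real.pi) / ‖1 + l‖ := by
    refine norm_le_of _ (div_nonneg hC hlpos.le) (fun u => ?_)
    have h2 := (ev u).integral_comp_comm (integrableOn_laplace bump ha s)
    rw [← ev_apply, ← h2, le_div_iff₀ hlpos, mul_comm]
    have h3 := laplace_bump_le ha s u
    simpa [bump_apply, hl] using h3
  calc _ ≤ ((1 + 2 * Real.pi) / ‖1 + l‖) ^ 2 := by gcongr
    _ = (1 + 2 * Real.pi) ^ 2 * (‖1 + l‖ ^ 2)⁻¹ := by rw [div_pow, div_eq_mul_inv]
    _ ≤ (1 + 2 * Real.pi) ^ 2 * (1 + s ^ 2)⁻¹ := by gcongr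

/-- The integrals in the resolvent condition are bounded uniformly in `a > 0`. -/
lemma lintegral_resolvent_le {a : ℝ} (ha : 0 < a) :
    ∫⁻ s : ℝ, ((‖∫ t in Ioi (0 : ℝ),
      Complex.exp (-(((a : ℂ) + (s : ℂ) * Complex.I) * (t : ℂ))) • shift t bump‖₊ : ENNReal)) ^ 2
      ≤ ENNReal.ofReal ((1 + 2 * Real.pi) ^ 2 * Real.pi) := by
  have hi : Integrable (fun s : ℝ => (1 + 2 * Real.pi) ^ 2 * (1 + s ^ 2)⁻¹) :=
    integrable_inv_one_add_sq.const_mul _
  have h1 := ofReal_integral_eq_lintegral_ofReal hi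
    (Eventually.of_forall fun s => by positivity)
  rw [integral_const_mul, integral_univ_inv_one_add_sq] at h1
  rw [h1]
  refine lintegral_mono fun s => ?_
  have h2 := norm_resolvent_sq_le ha s
  refine le_trans (le_of_eq ?_) (ENNReal.ofReal_le_ofReal h2)
  rw [ENNReal.ofReal_pow (norm_nonneg _), ofReal_norm]
  rfl

/-- The resolvent condition holds for the vector `bump`. -/
lemma resolvent_condition :
    Tendsto
      (fun a : ℝ => ENNReal.ofReal a *
        ∫⁻ s : ℝ,
          ((‖∫ t in Set.Ioi (0 : ℝ),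
              Complex.exp (-(((a : ℂ) + (s : ℂ) * Complex.I) * (t : ℂ))) • shift t bump‖₊ :
                ENNReal)) ^ 2)
      (𝓝[>] (0 : ℝ)) (𝓝 0) := by
  set K : ENNReal := ENNReal.ofReal ((1 + 2 * Real.pi) ^ 2 * Real.pi) with hK
  have h0 : Tendsto (fun a : ℝ => ENNReal.ofReal a) (𝓝[>] (0 : ℝ)) (𝓝 0) := by
    have := (ENNReal.continuous_ofReal.tendsto 0).mono_left (nhdsWithin_le_nhds (s := Ioi 0))
    simpa using this
  have h1 : Tendsto (fun a : ℝ => ENNReal.ofReal a * K) (𝓝[>] (0 : ℝ)) (𝓝 0) := by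
    have := ENNReal.Tendsto.mul_const h0 (Or.inr (b := (K ≠ ⊤)) ENNReal.ofReal_ne_top)
    simpa using this
  refine tendsto_of_tendsto_of_tendsto_of_le_of_le' tendsto_const_nhds h1
    (Eventually.of_forall fun a => zero_le) ?_
  filter_upwards [self_mem_nhdsWithin] with a ha
  exact mul_le_mul_right (lintegral_resolvent_le ha) _

end Pool.Agent.Lib.MP_ec63c8_an
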